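import Pool.Agent.K9h12.GP.Fin
import Pool.Agent.K9h12.NV.Goo

/-!
Varieties of all dimensions with two functions which meet the roots of a general polynomial and of
an arbitrary polynomial only together: the four hyperbolicity properties.
-/

set_option autoImplicit false

open Polynomial Pool.Agent.K9h12.FR Pool.Agent.K9h12.SG

namespace Pool.Agent.Results.MP_64ff02_ag.GeneralBranchVarieties

/-- **Varieties branched over the roots of a general and of an arbitrary polynomial.** Let `Q` be
any polynomial of degree `q` without multiple roots, and let `1025 * q + 245 * p < p * q` (for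
example `p, q ≥ 1300`). There is a nonzero polynomial `Ψ` in `p` variables such that for all
`α 0, ..., α (p - 1)` with `Ψ α ≠ 0` the following holds for the polynomials
`P = c * (X - α 0) * ... * (X - α (p - 1))`, `c ≠ 0`: `P` has no multiple roots, and there is a
nonzero polynomial `H` in two variables such that the following holds.

Let `A i`, `i < k`, be polynomials without multiple roots of degrees at least five, divided into two
groups (by `s i`), such that `A i0 = P` and `A j0 = Q` for two indices `i0`, `j0` in different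
groups. Let `X - D` be a quasi-projective variety of dimension `d > 0` with function field `K`, and
let `x i`, `i < k`, be elements of `K` such that `K` is algebraic over the field generated by them,
`A i (x i) ≠ 0`, and `H (x i0, x j0) ≠ 0` (for example, `x i0` and `x j0` are algebraically
independent). If for all `i`, `j` in different groups `(x i, x j)` never meets
`A i (x i) * A j (x j) = 0` with total contact order one, for example because `K` contains a function
`w` with `w ^ m = A i (x i) ^ r * A j (x j) ^ l`, where `m` divides neither `r` nor `l`, then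
`X - D` has all four properties. -/
theorem result {Q : ℂ[X]} (hQ : Q.Separable) {p : ℕ}
    (hpq : 1025 * Q.natDegree + 245 * p < p * Q.natDegree) :
    ∃ Ψ : MvPolynomial (Fin p) ℂ, Ψ ≠ 0 ∧
      ∀ (α : Fin p → ℂ) (c : ℂ), MvPolynomial.eval α Ψ ≠ 0 → c ≠ 0 →
      ∀ P : ℂ[X], P = C c * ∏ i, (X - C (α i)) → P.Separable ∧
      ∃ H : MvPolynomial (Fin 2) ℂ, H ≠ 0 ∧
        ∀ {k : ℕ} {A : Fin k → ℂ[X]}, (∀ i, (A i).Separable) → (∀ i, 5 ≤ (A i).natDegree) →
        ∀ (s : Fin k → Bool) {i0 j0 : Fin k}, s i0 ≠ s j0 → A i0 = P → A j0 = Q →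
        ∀ {N : ℕ} {X D : PSet N} {K : Type} [Field K] [Algebra ℂ K] {g : Fin (N + 1) → K},
        X.FunctionField K g → ¬ D.Mem g → ∀ {d : ℕ}, Algebra.trdeg ℂ K = d → 0 < d →
        ∀ {x : Fin k → K}, Algebra.IsAlgebraic (IntermediateField.adjoin ℂ (Set.range x)) K →
        (∀ i, aeval (x i) (A i) ≠ 0) → MvPolynomial.aeval ![x i0, x j0] H ≠ 0 →
        (∀ i j, s i ≠ s j → NoSimpleContact (A i) (A j) X D g (x i) (x j) ∨
          ∃ (w : K) (m r l : ℕ), ¬ m ∣ r ∧ ¬ m ∣ l ∧
            w ^ m = aeval (x i) (A i) ^ r * aeval (x j) (A j) ^ l) →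
        Four X D K g d := by
  obtain ⟨β, hβ, hQβ⟩ := exists_roots hQ
  have hB : Pool.Agent.K9h12.GP.Rts Q β :=
    ⟨hβ, Q.leadingCoeff, leadingCoeff_ne_zero.2 hQ.ne_zero, hQβ⟩
  obtain ⟨Ψ, hΨ, hΨ'⟩ := Pool.Agent.K9h12.GP.good_gen (p := p) hB hpq
  refine ⟨Ψ, hΨ, fun α c hα hc P hP => ?_⟩
  obtain ⟨hinj, hgood⟩ := hΨ' α hα
  have hR : Pool.Agent.K9h12.GP.Rts P α := ⟨hinj, c, hc, hP⟩
  obtain ⟨H, hH0, hH⟩ := hgood P hR
  refine ⟨hR.sep, H, hH0, ?_⟩
  intro k A hA h5 s i0 j0 hij hi0 hj0 N X D K _ _ g hK hD d htr hd x halg hne hHx hns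
  subst hi0
  subst hj0
  refine Pool.Agent.K9h12.NV.four hA h5 s hij hH hK hD hd htr halg hne hHx fun i j hs => ?_
  rcases hns i j hs with h | ⟨w, m, r, l, hr, hl, hw⟩
  · exact h
  · exact noSimple_of_root hK hr hl hw

end Pool.Agent.Results.MP_64ff02_ag.GeneralBranchVarieties
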