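import Pool.Agent.K9h12.LN.Fin

/-!
Surfaces with a map to the plane which meets general lines only in nodes of the lines or with
multiplicities, for example double planes whose branch curve contains many general lines: the four
hyperbolicity properties.
-/

set_option autoImplicit false

open Pool.Agent.K9h12.FR Pool.Agent.K9h12.LN

namespace Pool.Agent.Results.MP_64ff02_ag.GeneralLineSurfaces

/-- **Surfaces branched over general lines.** Let `p > 0`. There is a nonzero polynomial `Ψ` in
`2 p` variables such that for all lines `y = α i x + β i`, `i < p`, with `Ψ (α, β) ≠ 0` there is a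
nonzero polynomial `H` in two variables such that the following holds.

Let `A` be any polynomial in two variables with `20600 + 82 * deg A ≤ p`. Let `X - D` be a
quasi-projective variety of dimension `d > 0` with function field `K`, and let `x 0`, `x 1` be
elements of `K` such that `K` is algebraic over `ℂ(x 0, x 1)`, `H (x 0, x 1) ≠ 0` and
`A (x 0, x 1) ≠ 0` (for example, `x 0` and `x 1` are algebraically independent, and `X - D` is a
surface). If `(x 0, x 1)` never meets the union of the lines with total contact order one outside
the curve `A = 0`, for example because `K` contains a function `w` with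
`w ^ m = A (x 0, x 1) ^ s * ∏ (x 1 - α i x 0 - β i) ^ r i`, where `m` divides none of the `r i`,
then `X - D` has all four properties.

For example this holds for the double planes whose branch curve consists of `p` general lines and of
any curve `A = 0`, and, since `x 0` and `x 1` are arbitrary, for the double covers of any surface
which are branched over `p` general members of a net on this surface. -/
theorem result {p : ℕ} (hp : 0 < p) :
    ∃ Ψ : MvPolynomial (Fin p ⊕ Fin p) ℂ, Ψ ≠ 0 ∧
      ∀ α β : Fin p → ℂ, MvPolynomial.eval (Sum.elim α β) Ψ ≠ 0 →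
      ∃ H : MvPolynomial (Fin 2) ℂ, H ≠ 0 ∧
        ∀ A : MvPolynomial (Fin 2) ℂ, 20600 + 82 * A.totalDegree ≤ p →
        ∀ {N : ℕ} {X D : PSet N} {K : Type} [Field K] [Algebra ℂ K] {g : Fin (N + 1) → K},
        X.FunctionField K g → ¬ D.Mem g → ∀ {d : ℕ}, Algebra.trdeg ℂ K = d → 0 < d →
        ∀ {x : Fin 2 → K}, Algebra.IsAlgebraic (IntermediateField.adjoin ℂ (Set.range x)) K →
        MvPolynomial.aeval x H ≠ 0 → MvPolynomial.aeval x A ≠ 0 →
        (NoSimpleContact α β A X D g x ∨
          ∃ (w : K) (m s : ℕ) (r : Fin p → ℕ), (∀ i, ¬ m ∣ r i) ∧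
            w ^ m = MvPolynomial.aeval x A ^ s * ∏ i, el (α i) (β i) (x 0) (x 1) ^ r i) →
        Four X D K g d := by
  obtain ⟨Ψ, hΨ, hΨ'⟩ := exists_good hp
  refine ⟨Ψ, hΨ, fun α β hαβ => ?_⟩
  obtain ⟨H, hH, S, hgd⟩ := hΨ' α β hαβ
  refine ⟨HH α β H, HH_ne α β hH, ?_⟩
  intro A hA N X D K _ _ g hK hD d htr hd x halg hHx hAx hns
  refine hgd.four hA hK hD hd htr halg hHx hAx ?_
  rcases hns with h | ⟨w, m, s, r, hr, hw⟩
  · exact h
  · exact noSimple_of_root hK hr hw

end Pool.Agent.Results.MP_64ff02_ag.GeneralLineSurfaces
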