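import Pool.Agent.K9h12.NV.Goo

/-!
Varieties of all dimensions with functions whose values share multiplicities: the four hyperbolicity
properties.
-/

set_option autoImplicit false

open Polynomial Pool.Agent.K9h12.FR Pool.Agent.K9h12.SG

namespace Pool.Agent.Results.MP_64ff02_ag.SharedValueVarieties

/-- The number of the critical points of a polynomial. -/
noncomputable def crit (P : ℂ[X]) : ℕ := P.derivative.roots.toFinset.card

/-- **Varieties with functions which share multiplicities.** Let `P` and `Q` be polynomials without
multiple roots, of degrees at least fourteen more than twice the number of their critical points.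
There is a nonzero polynomial `H` in two variables such that the following holds.

Let `A i`, `i < k`, be polynomials without multiple roots of degrees at least five, divided into two
groups (by `s i`), such that `A i0 = P` and `A j0 = Q` for two indices `i0`, `j0` in different
groups. Let `X - D` be a quasi-projective variety of dimension `d > 0` with function field `K`, and
let `x i`, `i < k`, be elements of `K` such that `K` is algebraic over the field generated by them,
`A i (x i) ≠ 0`, and `H (x i0, x j0) ≠ 0` (for example, `x i0` and `x j0` are algebraically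
independent). If for all `i`, `j` in different groups `(x i, x j)` never meets
`A i (x i) * A j (x j) = 0` with total contact order one, for example because `K` contains a function
`w` with `w ^ m = A i (x i) ^ r * A j (x j) ^ l`, where `m` divides neither `r` nor `l`, then
`X - D` has all four properties. -/
theorem result {P Q : ℂ[X]} (hP : P.Separable) (hQ : Q.Separable)
    (hp : 2 * crit P + 14 ≤ P.natDegree) (hq : 2 * crit Q + 14 ≤ Q.natDegree) :
    ∃ H : MvPolynomial (Fin 2) ℂ, H ≠ 0 ∧
      ∀ {k : ℕ} {A : Fin k → ℂ[X]}, (∀ i, (A i).Separable) → (∀ i, 5 ≤ (A i).natDegree) →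
      ∀ (s : Fin k → Bool) {i0 j0 : Fin k}, s i0 ≠ s j0 → A i0 = P → A j0 = Q →
      ∀ {N : ℕ} {X D : PSet N} {K : Type} [Field K] [Algebra ℂ K] {g : Fin (N + 1) → K},
      X.FunctionField K g → ¬ D.Mem g → ∀ {d : ℕ}, Algebra.trdeg ℂ K = d → 0 < d →
      ∀ {x : Fin k → K}, Algebra.IsAlgebraic (IntermediateField.adjoin ℂ (Set.range x)) K →
      (∀ i, aeval (x i) (A i) ≠ 0) → MvPolynomial.aeval ![x i0, x j0] H ≠ 0 →
      (∀ i j, s i ≠ s j → NoSimpleContact (A i) (A j) X D g (x i) (x j) ∨
        ∃ (w : K) (m r l : ℕ), ¬ m ∣ r ∧ ¬ m ∣ l ∧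
          w ^ m = aeval (x i) (A i) ^ r * aeval (x j) (A j) ^ l) →
      Four X D K g d := by
  obtain ⟨H, hH0, hH⟩ := Pool.Agent.K9h12.NV.good_crit hP hQ hp hq
  refine ⟨H, hH0, ?_⟩
  intro k A hA h5 s i0 j0 hij hi0 hj0 N X D K _ _ g hK hD d htr hd x halg hne hHx h
  subst hi0
  subst hj0
  refine Pool.Agent.K9h12.NV.four hA h5 s hij hH hK hD hd htr halg hne hHx fun i j hs => ?_
  rcases h i j hs with h | ⟨w, m, r, l, hr, hl, hw⟩
  · exact h
  · exact noSimple_of_root hK hr hl hw

end Pool.Agent.Results.MP_64ff02_ag.SharedValueVarieties
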