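import Pool.Agent.K9h3.CV.H
import Pool.Agent.K9h84.CI.VgE

/-!
# Hyperbolicity of the complement of a smooth and a very general section of a surface

Let `S` be any smooth complete intersection surface in the projective space of dimension `s + 2`
(`s = 0`: the projective plane), cut out by forms `R i` of degrees `d i ≥ 1`, let `A` be any smooth
curve cut out in `S` by a form `P` of degree `a ≥ 1`, and let `b ≥ 2` be such that
`s + 5 ≤ a + b + ∑ d i` (for the plane: `5 ≤ a + b`, the bound in the logarithmic Kobayashi
conjecture). For very general forms `Q` of degree `b` (outside countably many hypersurfaces in the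
space of forms) the curve `B` cut out by `Q` is smooth and transversal to `A`, and `X = S - A - B` has
the following properties:

* `X` is hyperbolically embedded in `S`;
* every entire curve in `X` is constant;
* every holomorphic map from the punctured disc to `X` extends holomorphically over the puncture.

The proof combines the criterion of `K9h84/CI` (hyperbolic embedding is equivalent to the absence of
algebraic maps from the punctured line, if the members of the pencil of `A` and `B` contain no curves
of bounded speed) with an argument by derivations of the field of complex numbers (`K9h3/CV`,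
`K9h84/CI/VgA` to `VgE`).
-/

set_option autoImplicit false

namespace Pool.Agent.Results.MP_64ff02_ag.VeryGeneralSections

open Pool.Agent.K9h84.CI

/-- the complement of a smooth and a very general section of a smooth complete intersection surface
is hyperbolically embedded, Brody hyperbolic and Picard hyperbolic -/
theorem result {s : ℕ} {R : Fin s → MvPolynomial (Fin (s + 3)) ℂ}
    {P : MvPolynomial (Fin (s + 3)) ℂ} {d : Fin s → ℕ} {a b : ℕ} (ha : 1 ≤ a) (hb : 2 ≤ b)
    (hab : s + 5 ≤ a + b + ∑ i, d i) (hR : ∀ i, (R i).IsHomogeneous (d i)) (hd : ∀ i, 1 ≤ d i)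
    (hP : P.IsHomogeneous a) (hS : SmoothCI R)
    (hSP : SmoothCI (Fin.cons (α := fun _ => MvPolynomial (Fin (s + 3)) ℂ) P R)) :
    ForVeryGeneral s b (fun Q => SmoothPair R P Q d a b ∧ HypEmbedded R P Q ∧
      (∀ f, CurveIn R P Q f → ¬ Nonconst f) ∧
      ∀ f, PuncturedCurveIn R P Q f → ExtendsAtZero f) := by
  obtain ⟨N, h1, h2, h3⟩ := Pool.Agent.K9h3.CV.veryGeneral ha hb hab hR hd hP hS hSP
  refine ⟨N, h1, h2, fun Q hQ hN => ?_⟩
  obtain ⟨hsm, hyp⟩ := h3 Q hQ hN
  exact ⟨hsm, hyp, fun f hf => hyp.const hsm ha (by omega) (by omega) hf,
    fun f hf => hyp.extends hsm ha (by omega) (by omega) hf⟩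

end Pool.Agent.Results.MP_64ff02_ag.VeryGeneralSections
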